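import Pool.Agent.W96.CL.Stm
import Pool.Agent.H906R3.CY.RATE

set_option autoImplicit false

/-! Project CL (helper96): the crossing rate for all anisotropies. -/

open Polynomial Filter Topology

namespace W96CL

theorem main1_pp (θ : ℝ) (h0 : 0 < θ) (h1 : θ < Real.pi / 3) : 0 < pp θ ∧ pp θ < 1 := by
  have hpi := Real.pi_pos
  have ha : 0 < Real.sin (Real.pi / 3 - θ) :=
    Real.sin_pos_of_pos_of_lt_pi (by linarith) (by linarith)
  have hb : 0 < Real.sin (Real.pi / 3 + θ) :=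
    Real.sin_pos_of_pos_of_lt_pi (by linarith) (by linarith)
  have hc : Real.sin (Real.pi / 3 + θ) - Real.sin (Real.pi / 3 - θ) = Real.sin θ := by
    rw [Real.sin_add, Real.sin_sub, Real.cos_pi_div_three]
    ring
  have hd : 0 < Real.sin θ := Real.sin_pos_of_pos_of_lt_pi h0 (by linarith)
  unfold pp
  refine ⟨div_pos ha hb, ?_⟩
  rw [div_lt_one hb]
  linarith

theorem cl_main1 (hl : S_link) (hi : S_irr) (hf : S_fam) (hs : S_sq) (ht : S_tba)
    (ha : S_asym) : S_main1 := by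
  intro θ h0 h1
  obtain ⟨hp0, hp1⟩ := main1_pp θ h0 h1
  choose t lam hfam using fun b : ℕ => hf (b + 1) (Nat.succ_le_succ (Nat.zero_le b))
  refine ⟨fun b => -Real.log (lam b θ), ?_, ?_⟩
  · intro b
    obtain ⟨hpos, v, hv, he⟩ := (hfam b).eig θ h0 h1
    obtain ⟨hn, _, ⟨m, hm⟩, _⟩ := hi (b + 1) (pp θ) (Nat.succ_le_succ (Nat.zero_le b)) hp0 hp1
    have h := H906C.growth (TT (b + 1) (pp θ)) hn m hm v (lam b θ) hv hpos he (st0 (b + 1)) 1
      one_pos
    rw [div_one] at h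
    refine h.congr ?_
    intro a
    rw [one_pow, div_one, hl (pp θ) a b]
  · choose Q z0 hSQ using fun b : ℕ => hs (b + 1) (t b) (lam b)
      (Nat.succ_le_succ (Nat.zero_le b)) (hfam b) θ ⟨h0, h1⟩
    have hT : ∀ n : ℕ, TBA (n + 1) θ (z0 n) (fun u => (sC (n + 1) θ (t n θ) u).re)
        (fun u => (rC (n + 1) θ (Q n) u).re) (lam n θ) := fun n =>
      ht (n + 1) θ (t n θ) (Q n) (z0 n) (lam n θ) (hSQ n) ((hfam n).eig θ h0 h1).1
        ((hfam n).val θ h0 h1)
    have h := ha θ z0 (fun n u => (sC (n + 1) θ (t n θ) u).re)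
      (fun n u => (rC (n + 1) θ (Q n) u).re) (fun n => lam n θ) hT
    have h2 : Tendsto (fun b : ℕ => (b : ℝ) / ((b : ℝ) + 1)) atTop (𝓝 1) :=
      tendsto_natCast_div_add_atTop (1 : ℝ)
    have h3 := h2.mul h
    rw [one_mul] at h3
    refine h3.congr ?_
    intro b
    have : (b : ℝ) + 1 ≠ 0 := by positivity
    field_simp

end W96CL
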